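import Pool.Agent.L7h40.GS.Main
import Pool.Agent.L7h42.Zauner.Cubic

/-!
# Cyclic groups: the vector with its Frobenius symmetry
-/

set_option autoImplicit false

open Finset ComplexConjugate

namespace Pool.Agent.L7h40.GS

open Pool.Agent.N392.Ab

/-- the canonical additive character of a finite field -/
theorem exists_char (p : ℕ) [Fact p.Prime] (F : Type) [Field F] [Finite F] [Algebra (ZMod p) F] :
    ∃ ψ : AddChar F ℂ, ψ.IsPrimitive ∧ ∀ t : F, ψ (t ^ p) = ψ t := by
  have hfd : FiniteDimensional (ZMod p) F := Module.Finite.of_finite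
  set T : F →+ ZMod p := (Algebra.trace (ZMod p) F).toAddMonoidHom with hT
  refine ⟨(ZMod.stdAddChar (N := p)).compAddMonoidHom T, ?_, fun t => ?_⟩
  · apply AddChar.IsPrimitive.of_ne_one
    intro h
    obtain ⟨t, ht⟩ := Algebra.trace_surjective (ZMod p) F 1
    have h1 : (ZMod.stdAddChar (N := p)).compAddMonoidHom T t = 1 := by rw [h]; rfl
    rw [AddChar.compAddMonoidHom_apply] at h1
    have h2 : T t = 1 := ht
    rw [h2] at h1
    have h3 := ZMod.injective_stdAddChar (N := p) (h1.trans (AddChar.map_zero_eq_one _).symm)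
    exact one_ne_zero h3
  · rw [AddChar.compAddMonoidHom_apply, AddChar.compAddMonoidHom_apply]
    congr 1
    have h1 := Algebra.trace_eq_of_algEquiv
      (FiniteField.frobeniusAlgEquivOfAlgebraic (ZMod p) F) t
    rw [FiniteField.coe_frobeniusAlgEquivOfAlgebraic, ZMod.card] at h1
    exact h1

theorem cyclic (d : ℕ) [NeZero d] (hd : IsPrimePow (d + 1)) (h255 : 255 ≤ d) :
    ∃ x : EuclideanSpace ℂ (ZMod d), ‖x‖ = 1 ∧
      (∀ (k : ZMod d) (χ : AddChar (ZMod d) ℂ), (k ≠ 0 ∨ χ ≠ 0) →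
        |((d : ℝ) + 1) * ‖ov x k χ‖ ^ 2 - 1| ≤
          8 * ((d : ℝ) + 1) ^ (-(1 / 4) : ℝ) + 38 * ((d : ℝ) + 1) ^ (-(1 / 2) : ℝ)) ∧
      ∀ p : ℕ, p.Prime → p ∣ d + 1 → ∀ k, x ((p : ZMod d) * k) = x k := by
  classical
  obtain ⟨p, n, hp, hn, hpn⟩ := (isPrimePow_nat_iff _).1 hd
  have : Fact p.Prime := ⟨hp⟩
  let F := GaloisField p n
  have hfin : Finite F := inferInstance
  let _ : Fintype F := Fintype.ofFinite F
  have hcard : Fintype.card F = d + 1 := by
    rw [← Nat.card_eq_fintype_card, GaloisField.card p n hn.ne', hpn]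
  have hcardu : Nat.card Fˣ = d := by
    rw [Nat.card_eq_fintype_card, Fintype.card_units, hcard, Nat.add_sub_cancel]
  obtain ⟨e⟩ : Nonempty (Multiplicative (ZMod d) ≃* Fˣ) := by
    rw [← hcardu]
    exact ⟨zmodCyclicMulEquiv inferInstance⟩
  obtain ⟨ψ, hψ, hψp⟩ := exists_char p F
  obtain ⟨a, b, c, hn1, hov⟩ := fiducial e hψ (by rw [hcard]; omega)
  rw [ZMod.card] at hov
  refine ⟨vec e ψ a b c, hn1, hov, fun p' hp' hdvd k => ?_⟩
  have hpp : p' = p := by
    rw [← hpn] at hdvd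
    exact (Nat.prime_dvd_prime_iff_eq hp' hp).1 (hp'.dvd_of_dvd_pow hdvd)
  subst hpp
  have h1 : ((p' : ℕ) : ZMod d) * k = p' • k := by rw [nsmul_eq_mul]
  rw [h1, vec_apply, vec_apply, th_nsmul, hψp]
  congr 1
  have hinj : ∀ t : F, t ^ p' = 1 → t = 1 := by
    intro t ht
    have : CharP F p' := inferInstance
    apply frobenius_inj F p'
    rw [frobenius_def, frobenius_def, ht, one_pow]
  have h2 : p' • k = 0 ↔ k = 0 := by
    constructor
    · intro h
      by_contra hk
      apply th_sub_one_ne e hk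
      rw [sub_eq_zero]
      apply hinj
      rw [← th_nsmul, h, th_zero]
    · rintro rfl
      rw [smul_zero]
  simp only [h2]

end Pool.Agent.L7h40.GS
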