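import Mathlib
import Pool.Agent.N392.Ab.Base

/-!
# Additive characters on the multiplicative group: ambiguity functions
-/

set_option autoImplicit false

open Finset ComplexConjugate

namespace Pool.Agent.L7h40.GS

open Pool.Agent.N392.Ab

variable {A : Type*} [AddCommGroup A] [Fintype A] {F : Type*} [Field F] [Fintype F]

/-- the isomorphism with values in the field -/
def th (e : Multiplicative A ≃* Fˣ) (k : A) : F := (e (Multiplicative.ofAdd k) : Fˣ)

omit [Fintype A] [Fintype F] in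
theorem th_zero (e : Multiplicative A ≃* Fˣ) : th e 0 = 1 := by
  unfold th
  rw [ofAdd_zero, map_one, Units.val_one]

omit [Fintype A] [Fintype F] in
theorem th_add (e : Multiplicative A ≃* Fˣ) (k l : A) : th e (k + l) = th e k * th e l := by
  unfold th
  rw [ofAdd_add, map_mul, Units.val_mul]

omit [Fintype A] [Fintype F] in
theorem th_nsmul (e : Multiplicative A ≃* Fˣ) (n : ℕ) (k : A) : th e (n • k) = th e k ^ n := by
  unfold th
  rw [ofAdd_nsmul, map_pow, Units.val_pow_eq_pow_val]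

omit [Fintype A] [Fintype F] in
theorem th_ne (e : Multiplicative A ≃* Fˣ) (k : A) : th e k ≠ 0 := Units.ne_zero _

omit [Fintype A] [Fintype F] in
theorem th_sub_one_ne (e : Multiplicative A ≃* Fˣ) {k : A} (hk : k ≠ 0) : th e k - 1 ≠ 0 := by
  intro h
  apply hk
  have h1 : th e k = th e 0 := by rw [th_zero]; exact sub_eq_zero.1 h
  unfold th at h1
  have h2 := e.injective (Units.ext h1)
  exact Multiplicative.ofAdd.injective h2

omit [Fintype A] in
theorem card_eq [Fintype A] (e : Multiplicative A ≃* Fˣ) : Fintype.card A + 1 = Fintype.card F := by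
  classical
  have h1 : Fintype.card (Multiplicative A) = Fintype.card Fˣ := Fintype.card_congr e.toEquiv
  rw [Fintype.card_multiplicative, Fintype.card_units] at h1
  have : 0 < Fintype.card F := Fintype.card_pos
  omega

/-- the sum over the group is the sum over the nonzero elements -/
theorem sum_th (e : Multiplicative A ≃* Fˣ) (f : F → ℂ) :
    ∑ k, f (th e k) = (∑ t, f t) - f 0 := by
  classical
  have h1 : ∑ k, f (th e k) = ∑ u : Fˣ, f (u : F) := by
    refine Fintype.sum_equiv (Multiplicative.ofAdd.trans e.toEquiv) _ _ fun k => ?_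
    rfl
  have h2 : ∑ u : Fˣ, f (u : F) = ∑ t ∈ univ.erase (0 : F), f t := by
    refine Finset.sum_bij (fun u _ => (u : F)) (fun u _ => ?_) (fun u _ v _ h => Units.ext h)
      (fun t ht => ?_) (fun u _ => rfl)
    · rw [Finset.mem_erase]
      exact ⟨u.ne_zero, Finset.mem_univ _⟩
    · rw [Finset.mem_erase] at ht
      exact ⟨Units.mk0 t ht.1, Finset.mem_univ _, rfl⟩
  rw [h1, h2, ← Finset.add_sum_erase univ f (Finset.mem_univ (0 : F))]
  ring

/-- the sums `∑ ψ(c θ(k)) χ(k)` -/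
noncomputable def gs (e : Multiplicative A ≃* Fˣ) (ψ : AddChar F ℂ) (c : F) (χ : AddChar A ℂ) : ℂ :=
  ∑ k, ψ (c * th e k) * χ k

theorem gs_trivial (e : Multiplicative A ≃* Fˣ) {ψ : AddChar F ℂ} (hψ : ψ.IsPrimitive) {c : F}
    (hc : c ≠ 0) : gs e ψ c 0 = -1 := by
  classical
  unfold gs
  have h1 : ∀ k : A, ψ (c * th e k) * (0 : AddChar A ℂ) k = (fun t => ψ (t * c)) (th e k) := by
    intro k
    rw [AddChar.zero_apply, mul_one, mul_comm c]
  rw [Finset.sum_congr rfl fun k _ => h1 k, sum_th e (fun t => ψ (t * c)),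
    AddChar.sum_mulShift c hψ, if_neg hc]
  simp

/-- Gauss sums have modulus `√q` -/
theorem gs_sq (e : Multiplicative A ≃* Fˣ) {ψ : AddChar F ℂ} (hψ : ψ.IsPrimitive) {c : F}
    (hc : c ≠ 0) {χ : AddChar A ℂ} (hχ : χ ≠ 0) : ‖gs e ψ c χ‖ ^ 2 = Fintype.card F := by
  classical
  have h1 : (((‖gs e ψ c χ‖ ^ 2 : ℝ) : ℂ)) = Fintype.card F := by
    push_cast
    unfold gs
    rw [← Complex.mul_conj', map_sum, Finset.sum_mul_sum]
    have h3 : ∀ k : A, ∑ l, ψ (c * th e k) * χ k * conj (ψ (c * th e l) * χ l) =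
        ∑ h, χ (-h) * (ψ (c * (1 - th e h) * th e k)) := by
      intro k
      refine Fintype.sum_equiv (Equiv.subRight k) _ _ fun l => ?_
      rw [Equiv.subRight_apply, map_mul (starRingEnd ℂ), conj_char, conj_char]
      have e1 : ψ (c * (1 - th e (l - k)) * th e k) = ψ (c * th e k) * ψ (-(c * th e l)) := by
        rw [← AddChar.map_add_eq_mul]
        congr 1
        have : th e l = th e (l - k) * th e k := by rw [← th_add, sub_add_cancel]
        rw [this]
        ring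
      have e2 : χ (-(l - k)) = χ k * χ (-l) := by
        rw [← AddChar.map_add_eq_mul]
        congr 1
        abel
      rw [e1, e2]
      ring
    rw [Finset.sum_congr rfl fun k _ => h3 k, Finset.sum_comm]
    have h4 : ∀ h : A, ∑ k, χ (-h) * (ψ (c * (1 - th e h) * th e k)) =
        -χ (-h) + if h = 0 then (Fintype.card F : ℂ) else 0 := by
      intro h
      rw [← Finset.mul_sum]
      by_cases h0 : h = 0
      · subst h0
        have hc2 : (Fintype.card F : ℂ) = Fintype.card A + 1 := by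
          rw [← card_eq e]; push_cast; rfl
        rw [if_pos rfl, th_zero, hc2]
        simp
      · have h5 := gs_trivial e hψ (c := c * (1 - th e h))
          (mul_ne_zero hc (by
            intro h6
            apply th_sub_one_ne e h0
            rw [← neg_sub, h6, neg_zero]))
        unfold gs at h5
        simp only [AddChar.zero_apply, mul_one] at h5
        rw [h5, if_neg h0]
        ring
    simp_rw [h4]
    rw [Finset.sum_add_distrib, Finset.sum_ite_eq', if_pos (Finset.mem_univ _),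
      Finset.sum_neg_distrib]
    have h6 : ∑ h : A, χ (-h) = 0 := by
      rw [← AddChar.sum_eq_zero_iff_ne_zero.2 hχ]
      exact Fintype.sum_equiv (Equiv.neg A) _ _ fun m => by rw [Equiv.neg_apply]
    rw [h6]
    ring
  exact_mod_cast h1

theorem gs_norm (e : Multiplicative A ≃* Fˣ) {ψ : AddChar F ℂ} (hψ : ψ.IsPrimitive) {c : F}
    (hc : c ≠ 0) {χ : AddChar A ℂ} (hχ : χ ≠ 0) : ‖gs e ψ c χ‖ = Real.sqrt (Fintype.card F) := by
  rw [← gs_sq e hψ hc hχ, Real.sqrt_sq (norm_nonneg _)]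

theorem gs_norm_le (e : Multiplicative A ≃* Fˣ) {ψ : AddChar F ℂ} (hψ : ψ.IsPrimitive) {c : F}
    (hc : c ≠ 0) (χ : AddChar A ℂ) : ‖gs e ψ c χ‖ ≤ Real.sqrt (Fintype.card F) := by
  by_cases hχ : χ = 0
  · rw [hχ, gs_trivial e hψ hc, norm_neg, norm_one]
    rw [show (1 : ℝ) = Real.sqrt 1 by simp]
    apply Real.sqrt_le_sqrt
    exact_mod_cast (Fintype.card_pos : 0 < Fintype.card F)
  · exact (gs_norm e hψ hc hχ).le

/-- the vector -/
noncomputable def vec (e : Multiplicative A ≃* Fˣ) (ψ : AddChar F ℂ) (a b c : ℝ) :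
    EuclideanSpace ℂ A :=
  open Classical in
  WithLp.toLp 2 fun k => (a : ℂ) * ψ (th e k) + (c : ℂ) + if k = 0 then (b : ℂ) else 0

omit [Fintype A] [Fintype F] in
theorem vec_apply [DecidableEq A] (e : Multiplicative A ≃* Fˣ) (ψ : AddChar F ℂ) (a b c : ℝ)
    (k : A) : vec e ψ a b c k = (a : ℂ) * ψ (th e k) + (c : ℂ) + if k = 0 then (b : ℂ) else 0 := by
  unfold vec
  simp only
  congr

/-- the part of the overlap which comes from the point mass -/
noncomputable def pm (e : Multiplicative A ≃* Fˣ) (ψ : AddChar F ℂ) (a b c : ℝ) (s : A)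
    (χ : AddChar A ℂ) : ℂ :=
  (b : ℂ) * ((a : ℂ) * ψ (th e s) + c) +
    (b : ℂ) * ((a : ℂ) * ψ (-th e (-s)) + c) * χ (-s)

/-- the overlaps -/
theorem ov_vec [DecidableEq A] (e : Multiplicative A ≃* Fˣ) (ψ : AddChar F ℂ) (a b c : ℝ) (s : A)
    (χ : AddChar A ℂ) : ov (vec e ψ a b c) s χ =
      (a : ℂ) ^ 2 * gs e ψ (th e s - 1) χ + (a : ℂ) * c * (gs e ψ (-1) χ + gs e ψ (th e s) χ) +
      (c : ℂ) ^ 2 * (∑ k, χ k) + pm e ψ a b c s χ + if s = 0 then (b : ℂ) ^ 2 else 0 := by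
  unfold ov gs
  have hcj : ∀ k, conj (vec e ψ a b c k) =
      (a : ℂ) * ψ (-th e k) + (c : ℂ) + if k = 0 then (b : ℂ) else 0 := by
    intro k
    rw [vec_apply, map_add, map_add, map_mul, Complex.conj_ofReal, Complex.conj_ofReal,
      conj_char]
    congr 1
    split_ifs <;> simp
  have h1 : ∀ k : A, conj (vec e ψ a b c k) * vec e ψ a b c (k + s) * χ k =
      (a : ℂ) ^ 2 * (ψ ((th e s - 1) * th e k) * χ k) +
      ((a : ℂ) * c * (ψ (-1 * th e k) * χ k) + (a : ℂ) * c * (ψ (th e s * th e k) * χ k)) +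
      (c : ℂ) ^ 2 * χ k +
      ((if k = 0 then (b : ℂ) * ((a : ℂ) * ψ (th e s) + c) else 0) +
       (if k = -s then (b : ℂ) * ((a : ℂ) * ψ (-th e (-s)) + c) * χ (-s) else 0)) +
      (if k = 0 then (if s = 0 then (b : ℂ) ^ 2 else 0) else 0) := by
    intro k
    rw [hcj, vec_apply]
    have e1 : ψ ((th e s - 1) * th e k) = ψ (-th e k) * ψ (th e (k + s)) := by
      rw [← AddChar.map_add_eq_mul, th_add]
      congr 1
      ring
    have e2 : ψ (-1 * th e k) = ψ (-th e k) := by congr 1; ring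
    have e3 : ψ (th e s * th e k) = ψ (th e (k + s)) := by
      rw [th_add]
      congr 1
      ring
    rw [e1, e2, e3]
    by_cases hk : k = 0
    · subst hk
      by_cases hs : s = 0
      · subst hs
        simp only [if_true, neg_zero, add_zero, AddChar.map_zero_eq_one, mul_one]
        ring
      · have h4 : (0 : A) ≠ -s := by
          intro h
          exact hs (by rw [← neg_neg s, ← h, neg_zero])
        rw [zero_add, if_pos rfl, if_pos rfl, if_pos rfl, if_neg hs, if_neg h4, if_neg hs,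
          AddChar.map_zero_eq_one]
        ring
    · by_cases hk2 : k = -s
      · subst hk2
        rw [if_neg hk, if_neg hk, if_neg hk, if_pos rfl, neg_add_cancel, if_pos rfl]
        ring
      · have h4 : k + s ≠ 0 := fun h => hk2 (eq_neg_of_add_eq_zero_left h)
        rw [if_neg hk, if_neg hk, if_neg hk, if_neg hk2, if_neg h4]
        ring
  rw [Finset.sum_congr rfl fun k _ => h1 k]
  simp only [Finset.sum_add_distrib, ← Finset.mul_sum, Finset.sum_ite_eq', Finset.mem_univ, if_true]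
  unfold pm
  ring

theorem pm_le (e : Multiplicative A ≃* Fˣ) (ψ : AddChar F ℂ) {a b c : ℝ} (ha : 0 ≤ a) (hb : 0 ≤ b)
    (hc : 0 ≤ c) (s : A) (χ : AddChar A ℂ) : ‖pm e ψ a b c s χ‖ ≤ 2 * b * (a + c) := by
  unfold pm
  have h1 : ∀ z : F, ‖(b : ℂ) * ((a : ℂ) * ψ z + c)‖ ≤ b * (a + c) := by
    intro z
    rw [norm_mul, Complex.norm_real, Real.norm_eq_abs, abs_of_nonneg hb]
    apply mul_le_mul_of_nonneg_left _ hb
    refine (norm_add_le _ _).trans ?_
    rw [norm_mul, norm_char, mul_one, Complex.norm_real, Complex.norm_real, Real.norm_eq_abs,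
      Real.norm_eq_abs, abs_of_nonneg ha, abs_of_nonneg hc]
  refine (norm_add_le _ _).trans ?_
  rw [norm_mul (_ * _) (χ (-s)), norm_char, mul_one]
  linarith [h1 (th e s), h1 (-th e (-s))]

theorem ov_zero_zero (e : Multiplicative A ≃* Fˣ) {ψ : AddChar F ℂ} (hψ : ψ.IsPrimitive)
    (a b c : ℝ) : ov (vec e ψ a b c) 0 0 =
      (((Fintype.card A : ℝ) * a ^ 2 - 2 * (a * c) + c ^ 2 * Fintype.card A + b ^ 2 + 2 * (b * c) +
        2 * (a * b) * (ψ 1).re : ℝ) : ℂ) := by
  classical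
  rw [ov_vec, if_pos rfl]
  have h1 : gs e ψ (-1) (0 : AddChar A ℂ) = -1 := gs_trivial e hψ (neg_ne_zero.2 one_ne_zero)
  have h2 : gs e ψ (th e 0) (0 : AddChar A ℂ) = -1 := gs_trivial e hψ (th_ne e 0)
  have h3 : gs e ψ (th e 0 - 1) (0 : AddChar A ℂ) = Fintype.card A := by
    unfold gs
    rw [th_zero]
    simp
  have h4 : ∑ k : A, (0 : AddChar A ℂ) k = (Fintype.card A : ℂ) := by simp
  have h5 : ψ (-1) = conj (ψ 1) := (conj_char ψ 1).symm
  have h6 : ψ 1 + conj (ψ 1) = 2 * (((ψ 1).re : ℝ) : ℂ) := by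
    rw [Complex.add_conj]
    push_cast
    rfl
  rw [h1, h2, h3, h4]
  unfold pm
  rw [neg_zero, th_zero, h5, AddChar.zero_apply]
  push_cast
  linear_combination (a * b : ℂ) * h6

/-- overlaps with both parts nontrivial -/
theorem ov_both (e : Multiplicative A ≃* Fˣ) {ψ : AddChar F ℂ} (hψ : ψ.IsPrimitive) {a b c : ℝ}
    (ha : 0 ≤ a) (hb : 0 ≤ b) (hc : 0 ≤ c) {s : A} (hs : s ≠ 0) {χ : AddChar A ℂ} (hχ : χ ≠ 0) :
    |‖ov (vec e ψ a b c) s χ‖ - a ^ 2 * Real.sqrt (Fintype.card F)| ≤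
      2 * (a * c) * Real.sqrt (Fintype.card F) + 2 * b * (a + c) := by
  classical
  rw [ov_vec, if_neg hs, add_zero]
  have h1 : ‖(a : ℂ) ^ 2 * gs e ψ (th e s - 1) χ‖ = a ^ 2 * Real.sqrt (Fintype.card F) := by
    rw [norm_mul, gs_norm e hψ (th_sub_one_ne e hs) hχ, norm_pow, Complex.norm_real,
      Real.norm_eq_abs, sq_abs]
  have h2 : ∑ k, χ k = 0 := AddChar.sum_eq_zero_iff_ne_zero.2 hχ
  have h3 : ‖(a : ℂ) * c * (gs e ψ (-1) χ + gs e ψ (th e s) χ)‖ ≤
      2 * (a * c) * Real.sqrt (Fintype.card F) := by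
    rw [norm_mul, norm_mul, Complex.norm_real, Complex.norm_real, Real.norm_eq_abs,
      Real.norm_eq_abs, abs_of_nonneg ha, abs_of_nonneg hc]
    have h4 : ‖gs e ψ (-1) χ + gs e ψ (th e s) χ‖ ≤
        Real.sqrt (Fintype.card F) + Real.sqrt (Fintype.card F) :=
      (norm_add_le _ _).trans (add_le_add (gs_norm_le e hψ (neg_ne_zero.2 one_ne_zero) χ)
        (gs_norm_le e hψ (th_ne e s) χ))
    calc a * c * _ ≤ a * c * (Real.sqrt (Fintype.card F) + Real.sqrt (Fintype.card F)) :=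
          mul_le_mul_of_nonneg_left h4 (by positivity)
      _ = _ := by ring
  rw [h2, mul_zero, add_zero, add_assoc, ← h1]
  have h8 : |‖(a : ℂ) ^ 2 * gs e ψ (th e s - 1) χ +
      ((a : ℂ) * c * (gs e ψ (-1) χ + gs e ψ (th e s) χ) + pm e ψ a b c s χ)‖ -
      ‖(a : ℂ) ^ 2 * gs e ψ (th e s - 1) χ‖| ≤
      ‖(a : ℂ) * c * (gs e ψ (-1) χ + gs e ψ (th e s) χ) + pm e ψ a b c s χ‖ := by
    have := abs_norm_sub_norm_le ((a : ℂ) ^ 2 * gs e ψ (th e s - 1) χ +
      ((a : ℂ) * c * (gs e ψ (-1) χ + gs e ψ (th e s) χ) + pm e ψ a b c s χ))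
      ((a : ℂ) ^ 2 * gs e ψ (th e s - 1) χ)
    rwa [add_sub_cancel_left] at this
  exact h8.trans ((norm_add_le _ _).trans (add_le_add h3 (pm_le e ψ ha hb hc s χ)))

/-- overlaps without translation -/
theorem ov_mod (e : Multiplicative A ≃* Fˣ) {ψ : AddChar F ℂ} (hψ : ψ.IsPrimitive) {a b c : ℝ}
    (ha : 0 ≤ a) (hb : 0 ≤ b) (hc : 0 ≤ c) {χ : AddChar A ℂ} (hχ : χ ≠ 0) :
    |‖ov (vec e ψ a b c) 0 χ‖ - b ^ 2| ≤
      2 * (a * c) * Real.sqrt (Fintype.card F) + 2 * b * (a + c) := by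
  classical
  rw [ov_vec, if_pos rfl]
  have h2 : ∑ k, χ k = 0 := AddChar.sum_eq_zero_iff_ne_zero.2 hχ
  have h1 : gs e ψ (th e 0 - 1) χ = 0 := by
    unfold gs
    rw [th_zero]
    simpa using h2
  have h3 : ‖(a : ℂ) * c * (gs e ψ (-1) χ + gs e ψ (th e 0) χ)‖ ≤
      2 * (a * c) * Real.sqrt (Fintype.card F) := by
    rw [norm_mul, norm_mul, Complex.norm_real, Complex.norm_real, Real.norm_eq_abs,
      Real.norm_eq_abs, abs_of_nonneg ha, abs_of_nonneg hc]
    have h4 : ‖gs e ψ (-1) χ + gs e ψ (th e 0) χ‖ ≤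
        Real.sqrt (Fintype.card F) + Real.sqrt (Fintype.card F) :=
      (norm_add_le _ _).trans (add_le_add (gs_norm_le e hψ (neg_ne_zero.2 one_ne_zero) χ)
        (gs_norm_le e hψ (th_ne e 0) χ))
    calc a * c * _ ≤ a * c * (Real.sqrt (Fintype.card F) + Real.sqrt (Fintype.card F)) :=
          mul_le_mul_of_nonneg_left h4 (by positivity)
      _ = _ := by ring
  rw [h1, h2, mul_zero, mul_zero, zero_add, add_zero]
  have h5 : ‖(b : ℂ) ^ 2‖ = b ^ 2 := by
    rw [norm_pow, Complex.norm_real, Real.norm_eq_abs, sq_abs]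
  have h8 := abs_norm_sub_norm_le
    ((a : ℂ) * c * (gs e ψ (-1) χ + gs e ψ (th e 0) χ) + pm e ψ a b c 0 χ + (b : ℂ) ^ 2)
    ((b : ℂ) ^ 2)
  rw [add_sub_cancel_right, h5] at h8
  exact h8.trans ((norm_add_le _ _).trans (add_le_add h3 (pm_le e ψ ha hb hc 0 χ)))

/-- overlaps without modulation -/
theorem ov_tra (e : Multiplicative A ≃* Fˣ) {ψ : AddChar F ℂ} (hψ : ψ.IsPrimitive) {a b c : ℝ}
    (ha : 0 ≤ a) (hb : 0 ≤ b) (hc : 0 ≤ c) {s : A} (hs : s ≠ 0) :
    |‖ov (vec e ψ a b c) s 0‖ - c ^ 2 * Fintype.card A| ≤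
      a ^ 2 + 2 * (a * c) + 2 * b * (a + c) := by
  classical
  rw [ov_vec, if_neg hs, add_zero]
  have h1 : gs e ψ (-1) (0 : AddChar A ℂ) = -1 := gs_trivial e hψ (neg_ne_zero.2 one_ne_zero)
  have h2 : gs e ψ (th e s) (0 : AddChar A ℂ) = -1 := gs_trivial e hψ (th_ne e s)
  have h3 : gs e ψ (th e s - 1) (0 : AddChar A ℂ) = -1 := gs_trivial e hψ (th_sub_one_ne e hs)
  have h4 : ∑ k : A, (0 : AddChar A ℂ) k = (Fintype.card A : ℂ) := by simp
  rw [h1, h2, h3, h4]
  have h5 : ‖(c : ℂ) ^ 2 * (Fintype.card A : ℂ)‖ = c ^ 2 * Fintype.card A := by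
    rw [norm_mul, norm_pow, Complex.norm_real, Real.norm_eq_abs, sq_abs, Complex.norm_natCast]
  have h6 : ‖(a : ℂ) ^ 2 * -1 + (a : ℂ) * c * (-1 + -1)‖ ≤ a ^ 2 + 2 * (a * c) := by
    refine (norm_add_le _ _).trans ?_
    have e1 : ‖(a : ℂ) ^ 2 * -1‖ = a ^ 2 := by
      rw [norm_mul, norm_pow, Complex.norm_real, Real.norm_eq_abs, sq_abs, norm_neg, norm_one,
        mul_one]
    have e2 : ‖(a : ℂ) * c * (-1 + -1)‖ = 2 * (a * c) := by
      have : (-1 + -1 : ℂ) = -(2 : ℝ) := by push_cast; ring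
      rw [this, norm_mul, norm_mul, norm_neg, Complex.norm_real, Complex.norm_real,
        Complex.norm_real, Real.norm_eq_abs, Real.norm_eq_abs, Real.norm_eq_abs,
        abs_of_nonneg ha, abs_of_nonneg hc, abs_of_pos two_pos]
      ring
    rw [e1, e2]
  have h8 := abs_norm_sub_norm_le ((a : ℂ) ^ 2 * -1 + (a : ℂ) * c * (-1 + -1) +
    (c : ℂ) ^ 2 * (Fintype.card A : ℂ) + pm e ψ a b c s 0) ((c : ℂ) ^ 2 * (Fintype.card A : ℂ))
  have e3 : (a : ℂ) ^ 2 * -1 + (a : ℂ) * c * (-1 + -1) +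
    (c : ℂ) ^ 2 * (Fintype.card A : ℂ) + pm e ψ a b c s 0 - (c : ℂ) ^ 2 * (Fintype.card A : ℂ) =
    (a : ℂ) ^ 2 * -1 + (a : ℂ) * c * (-1 + -1) + pm e ψ a b c s 0 := by ring
  rw [e3, h5] at h8
  exact h8.trans ((norm_add_le _ _).trans (add_le_add h6 (pm_le e ψ ha hb hc s 0)))

end Pool.Agent.L7h40.GS
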