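import Mathlib

/-!
# Numerical estimates
-/

set_option autoImplicit false

namespace Pool.Agent.L7h40.GS

/-- choice of the main coefficient -/
theorem exists_alpha {s u r : ℝ} (hs : 0 < s) (hs4 : s ≤ 1 / 4) (hu0 : 0 ≤ u) (hu : u ≤ 257 / 256) :
    ∃ α : ℝ, 0 ≤ α ∧ α ^ 2 + 2 * α * (u * s ^ 3 * (r - u * s ^ 2)) + 2 * s ^ 2 + 2 * u * s ^ 4 = 1 := by
  set β := u * s ^ 3 * (r - u * s ^ 2) with hβ
  have hm : 0 ≤ 1 - (2 * s ^ 2 + 2 * u * s ^ 4) := by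
    have h1 : s ^ 2 ≤ 1 / 16 := by nlinarith
    have h2 : s ^ 4 ≤ 1 / 256 := by
      have : s ^ 4 = s ^ 2 * s ^ 2 := by ring
      rw [this]
      nlinarith [sq_nonneg s]
    have h3 : u * s ^ 4 ≤ 257 / 256 * (1 / 256) :=
      mul_le_mul hu h2 (by positivity) (by norm_num)
    nlinarith [mul_nonneg hu0 (by positivity : 0 ≤ s ^ 4)]
  have hnn : 0 ≤ β ^ 2 + (1 - (2 * s ^ 2 + 2 * u * s ^ 4)) := by positivity
  refine ⟨-β + Real.sqrt (β ^ 2 + (1 - (2 * s ^ 2 + 2 * u * s ^ 4))), ?_, ?_⟩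
  · have h1 : |β| ≤ Real.sqrt (β ^ 2 + (1 - (2 * s ^ 2 + 2 * u * s ^ 4))) := by
      rw [← Real.sqrt_sq_eq_abs]
      exact Real.sqrt_le_sqrt (by linarith)
    linarith [le_abs_self β]
  · have h2 := Real.sq_sqrt hnn
    nlinarith

theorem alpha_le {s u r α : ℝ} (hs : 0 < s) (hs4 : s ≤ 1 / 4) (hu1 : 1 ≤ u) (hu : u ≤ 257 / 256)
    (hr : |r| ≤ 1) (hα : 0 ≤ α)
    (h : α ^ 2 + 2 * α * (u * s ^ 3 * (r - u * s ^ 2)) + 2 * s ^ 2 + 2 * u * s ^ 4 = 1) :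
    α ≤ 1 := by
  by_contra hcon
  rw [not_le] at hcon
  have hr1 := (abs_le.1 hr).1
  have h1 : -(r - u * s ^ 2) ≤ 17 / 16 * 1.1 := by nlinarith
  have h2 : u * s ^ 3 * (-(r - u * s ^ 2)) ≤ 1 / 2 * s ^ 2 := by
    have h3 : u * s ^ 3 * (-(r - u * s ^ 2)) ≤ u * s ^ 3 * (17 / 16 * 1.1) :=
      mul_le_mul_of_nonneg_left h1 (by positivity)
    have h4 : u * s ^ 3 ≤ 257 / 256 * (1 / 4 * s ^ 2) := by
      have : s ^ 3 = s * s ^ 2 := by ring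
      rw [this]
      apply mul_le_mul hu _ (by positivity) (by norm_num)
      exact mul_le_mul_of_nonneg_right hs4 (by positivity)
    nlinarith [sq_nonneg s]
  -- α² - s² α ≤ 1 - 2 s²
  have h3 : α ^ 2 - α * s ^ 2 + 2 * s ^ 2 ≤ 1 := by
    have h4 : 2 * α * (u * s ^ 3 * (-(r - u * s ^ 2))) ≤ 2 * α * (1 / 2 * s ^ 2) :=
      mul_le_mul_of_nonneg_left h2 (by positivity)
    have h5 : 0 ≤ 2 * u * s ^ 4 := by positivity
    nlinarith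
  have hs2 : s ^ 2 ≤ 1 / 16 := by nlinarith
  nlinarith [sq_nonneg s, mul_nonneg (sub_nonneg.2 hcon.le) (sq_nonneg s)]

/-- the common error terms -/
theorem common {s u α : ℝ} (hs : 0 < s) (hs4 : s ≤ 1 / 4) (hu1 : 1 ≤ u) (hu : u ≤ 257 / 256)
    (hus : u ^ 2 = 1 + u ^ 2 * s ^ 4) (hα : 0 ≤ α) (hα1 : α ≤ 1) :
    2 * α * s * u ^ 2 + 2 * s * (α + s) * u ≤ 4 * s + 2.1 * s ^ 2 := by
  have hu2 : u ^ 2 ≤ 1.01 := by nlinarith
  have hs3 : s ^ 3 ≤ 1 / 64 := by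
    have := pow_le_pow_left₀ hs.le hs4 3
    linarith
  have h1 : u ^ 2 ≤ 1 + 0.02 * s := by
    have h2 : u ^ 2 * s ^ 4 ≤ 1.01 * (1 / 64 * s) := by
      have : s ^ 4 = s ^ 3 * s := by ring
      rw [this]
      apply mul_le_mul hu2 _ (by positivity) (by norm_num)
      exact mul_le_mul_of_nonneg_right hs3 hs.le
    linarith
  have h2 : u ≤ 1 + 0.02 * s := by nlinarith
  have h3 : 2 * α * s * u ^ 2 ≤ 2 * 1 * s * (1 + 0.02 * s) := by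
    apply mul_le_mul _ h1 (by positivity) (by positivity)
    nlinarith
  have h4 : 2 * s * (α + s) * u ≤ 2 * s * (1 + s) * (1 + 0.02 * s) := by
    apply mul_le_mul _ h2 (by positivity) (by positivity)
    nlinarith
  nlinarith [mul_nonneg (mul_nonneg hs.le hs.le) (sub_nonneg.2 hs4)]

theorem main_err {s u r α : ℝ} (hs : 0 < s) (hs4 : s ≤ 1 / 4) (hu1 : 1 ≤ u) (hu : u ≤ 257 / 256)
    (hus : u ^ 2 = 1 + u ^ 2 * s ^ 4) (hr : |r| ≤ 1) (hα : 0 ≤ α) (hα1 : α ≤ 1)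
    (h : α ^ 2 + 2 * α * (u * s ^ 3 * (r - u * s ^ 2)) + 2 * s ^ 2 + 2 * u * s ^ 4 = 1) :
    |α ^ 2 * u ^ 2 - 1| ≤ 2.9 * s ^ 2 := by
  have hu2 : u ^ 2 ≤ 1.01 := by nlinarith
  have hs2 : s ^ 2 ≤ 1 / 16 := by nlinarith
  have hs3 : s ^ 3 ≤ 1 / 4 * s ^ 2 := by
    have : s ^ 3 = s * s ^ 2 := by ring
    rw [this]
    exact mul_le_mul_of_nonneg_right hs4 (by positivity)
  have hs4' : s ^ 4 ≤ 1 / 16 * s ^ 2 := by
    have : s ^ 4 = s ^ 2 * s ^ 2 := by ring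
    rw [this]
    exact mul_le_mul_of_nonneg_right hs2 (by positivity)
  obtain ⟨hr0, hr1⟩ := abs_le.1 hr
  have hus2 : u * s ^ 2 ≤ 0.063 := by nlinarith
  have hus2' : 0 ≤ u * s ^ 2 := by positivity
  have hb : |r - u * s ^ 2| ≤ 1.063 := by
    rw [abs_le]
    constructor <;> linarith
  have hc : |2 * α * (u * s ^ 3 * (r - u * s ^ 2))| ≤ 0.54 * s ^ 2 := by
    rw [abs_mul (2 * α), abs_mul (u * s ^ 3), abs_of_nonneg (by positivity : (0 : ℝ) ≤ 2 * α),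
      abs_of_nonneg (by positivity : (0 : ℝ) ≤ u * s ^ 3)]
    have e1 : u * s ^ 3 ≤ 257 / 256 * (1 / 4 * s ^ 2) :=
      mul_le_mul hu hs3 (by positivity) (by norm_num)
    have e2 : u * s ^ 3 * |r - u * s ^ 2| ≤ 257 / 256 * (1 / 4 * s ^ 2) * 1.063 :=
      mul_le_mul e1 hb (abs_nonneg _) (by positivity)
    have e3 : 2 * α * (u * s ^ 3 * |r - u * s ^ 2|) ≤ 2 * 1 * (257 / 256 * (1 / 4 * s ^ 2) * 1.063) :=
      mul_le_mul (by linarith) e2 (by positivity) (by norm_num)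
    nlinarith [sq_nonneg s]
  have h1 : |α ^ 2 - 1| ≤ 2.67 * s ^ 2 := by
    obtain ⟨c0, c1⟩ := abs_le.1 hc
    have e1 : u * s ^ 4 ≤ 257 / 256 * (1 / 16 * s ^ 2) :=
      mul_le_mul hu hs4' (by positivity) (by norm_num)
    have e2 : 0 ≤ u * s ^ 4 := by positivity
    rw [abs_le]
    constructor <;> nlinarith [sq_nonneg s]
  have h2 : |u ^ 2 * (α ^ 2 - 1)| ≤ 1.01 * (2.67 * s ^ 2) := by
    rw [abs_mul, abs_of_nonneg (sq_nonneg u)]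
    exact mul_le_mul hu2 h1 (abs_nonneg _) (by norm_num)
  have h3 : u ^ 2 * s ^ 4 ≤ 1.01 * (1 / 16 * s ^ 2) :=
    mul_le_mul hu2 hs4' (by positivity) (by norm_num)
  have h4 : α ^ 2 * u ^ 2 - 1 = u ^ 2 * (α ^ 2 - 1) + u ^ 2 * s ^ 4 := by linarith
  rw [h4, abs_le]
  obtain ⟨d0, d1⟩ := abs_le.1 h2
  have h5 : 0 ≤ u ^ 2 * s ^ 4 := by positivity
  constructor <;> nlinarith [sq_nonneg s]

theorem final {s w : ℝ} (hs : 0 < s) (hs4 : s ≤ 1 / 4) (h : |w - 1| ≤ 4 * s + 5 * s ^ 2) :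
    |w ^ 2 - 1| ≤ 8 * s + 38 * s ^ 2 := by
  set δ := 4 * s + 5 * s ^ 2 with hδ
  have hδ0 : 0 ≤ δ := by positivity
  have h1 : |w ^ 2 - 1| ≤ 2 * δ + δ ^ 2 := by
    obtain ⟨h2, h3⟩ := abs_le.1 h
    rw [abs_le]
    constructor <;> nlinarith
  have h2 : 2 * δ + δ ^ 2 ≤ 8 * s + 38 * s ^ 2 := by
    rw [hδ]
    have e1 : s ^ 3 ≤ 1 / 4 * s ^ 2 := by
      have : s ^ 3 = s * s ^ 2 := by ring
      rw [this]
      exact mul_le_mul_of_nonneg_right hs4 (by positivity)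
    have e2 : s ^ 4 ≤ 1 / 16 * s ^ 2 := by
      have : s ^ 4 = s ^ 2 * s ^ 2 := by ring
      rw [this]
      have : s ^ 2 ≤ 1 / 16 := by nlinarith
      exact mul_le_mul_of_nonneg_right this (by positivity)
    nlinarith [sq_nonneg s]
  exact h1.trans h2

end Pool.Agent.L7h40.GS
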