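import Pool.Agent.L7h40.GS.Gauss
import Pool.Agent.L7h40.GS.Num

/-!
# Almost fiducial vectors for cyclic groups of order `q - 1`
-/

set_option autoImplicit false

open Finset ComplexConjugate

namespace Pool.Agent.L7h40.GS

open Pool.Agent.N392.Ab

variable {A : Type*} [AddCommGroup A] [Fintype A] {F : Type*} [Field F] [Fintype F]

theorem fiducial (e : Multiplicative A ≃* Fˣ) {ψ : AddChar F ℂ} (hψ : ψ.IsPrimitive)
    (hq : 256 ≤ Fintype.card F) :
    ∃ a b c : ℝ, ‖vec e ψ a b c‖ = 1 ∧ ∀ (k : A) (χ : AddChar A ℂ), (k ≠ 0 ∨ χ ≠ 0) →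
      |((Fintype.card A : ℝ) + 1) * ‖ov (vec e ψ a b c) k χ‖ ^ 2 - 1| ≤
        8 * ((Fintype.card A : ℝ) + 1) ^ (-(1 / 4) : ℝ) +
          38 * ((Fintype.card A : ℝ) + 1) ^ (-(1 / 2) : ℝ) := by
  have hcard : (Fintype.card A : ℝ) + 1 = Fintype.card F := by exact_mod_cast card_eq e
  set D : ℝ := (Fintype.card A : ℝ) with hD
  set q : ℝ := (Fintype.card F : ℝ) with hqd
  have hq256 : (256 : ℝ) ≤ q := by rw [hqd]; exact_mod_cast hq
  have hq0 : 0 < q := by linarith
  have hD255 : 255 ≤ D := by linarith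
  have hD0 : 0 < D := by linarith
  rw [hcard]
  set s : ℝ := q ^ (-(1 / 4) : ℝ) with hs
  have hs0 : 0 < s := Real.rpow_pos_of_pos hq0 _
  have hs2 : s ^ 2 = q ^ (-(1 / 2) : ℝ) := by
    rw [hs, ← Real.rpow_natCast, ← Real.rpow_mul hq0.le]
    norm_num
  have hs4 : s ^ 4 * q = 1 := by
    have h1 : s ^ 4 = q⁻¹ := by
      rw [hs, ← Real.rpow_natCast, ← Real.rpow_mul hq0.le, ← Real.rpow_neg_one]
      norm_num
    rw [h1]
    field_simp
  have hsq : s ≤ 1 / 4 := by
    by_contra hcon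
    rw [not_le] at hcon
    have h1 : (1 / 4 : ℝ) ^ 4 < s ^ 4 := pow_lt_pow_left₀ hcon (by norm_num) (by norm_num)
    have h2 : s ^ 4 * q > (1 / 4 : ℝ) ^ 4 * 256 := by
      have := mul_lt_mul h1 hq256 (by norm_num) (by positivity)
      linarith
    rw [hs4] at h2
    norm_num at h2
  set S : ℝ := Real.sqrt q with hS
  have hS0 : 0 < S := Real.sqrt_pos.2 hq0
  have hSq : S ^ 2 = q := Real.sq_sqrt hq0.le
  have hSs : S * s ^ 2 = 1 := by
    have h1 : (S * s ^ 2) ^ 2 = 1 := by
      rw [mul_pow, hSq, ← hs4]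
      ring
    have h2 : 0 ≤ S * s ^ 2 := by positivity
    nlinarith
  set t : ℝ := 1 / Real.sqrt D with ht
  have ht0 : 0 < t := by rw [ht]; positivity
  have htD : D * t ^ 2 = 1 := by
    rw [ht, div_pow, Real.sq_sqrt hD0.le]
    field_simp
  set u : ℝ := t / s ^ 2 with hu
  have htu : t = u * s ^ 2 := by rw [hu]; field_simp
  have hu0 : 0 < u := by rw [hu]; positivity
  have hus : u ^ 2 = 1 + u ^ 2 * s ^ 4 := by
    -- q t² = u²
    have h1 : t ^ 2 = u ^ 2 * s ^ 4 := by rw [htu]; ring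
    have h2 : u ^ 2 = q * t ^ 2 := by
      rw [h1]
      linear_combination (-(u ^ 2)) * hs4
    rw [← h1, h2, ← hcard]
    linear_combination htD
  have hu1 : 1 ≤ u := by
    have : 1 ≤ u ^ 2 := by
      rw [hus]
      have : 0 ≤ u ^ 2 * s ^ 4 := by positivity
      linarith
    nlinarith
  have hs4le : s ^ 4 ≤ 1 / 256 := by
    have := pow_le_pow_left₀ hs0.le hsq 4
    norm_num at this ⊢
    exact this
  have hu257 : u ≤ 257 / 256 := by
    have h1 : u ^ 2 ≤ 256 / 255 := by nlinarith [sq_nonneg u]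
    nlinarith
  set r : ℝ := (ψ 1).re with hr
  have hr1 : |r| ≤ 1 := by
    rw [hr]
    refine (Complex.abs_re_le_norm _).trans ?_
    rw [norm_char]
  obtain ⟨α, hα0, hα⟩ := exists_alpha (r := r) hs0 hsq hu0.le hu257
  have hα1 := alpha_le hs0 hsq hu1 hu257 hr1 hα0 hα
  have hcom := common hs0 hsq hu1 hu257 hus hα0 hα1
  have hmain := main_err hs0 hsq hu1 hu257 hus hr1 hα0 hα1 hα
  have ha0 : 0 ≤ α * t := by positivity
  have hb0 : 0 ≤ s := hs0.le
  have hc0 : 0 ≤ s * t := by positivity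
  have hu2 : u ^ 2 ≤ 1.01 := by nlinarith
  refine ⟨α * t, s, s * t, ?_, fun k χ hk => ?_⟩
  · have h1 := norm_sq_eq (vec e ψ (α * t) s (s * t))
    rw [ov_zero_zero e hψ] at h1
    have h2 := Complex.ofReal_injective h1
    have h3 : ‖vec e ψ (α * t) s (s * t)‖ ^ 2 = 1 := by
      rw [h2, ← hα, ← hD, ← hr]
      have h4 : D * (α * t) ^ 2 = α ^ 2 := by linear_combination α ^ 2 * htD
      have h5 : (s * t) ^ 2 * D = s ^ 2 := by linear_combination s ^ 2 * htD
      rw [h4, h5, htu]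
      ring
    have h4 : 0 ≤ ‖vec e ψ (α * t) s (s * t)‖ := norm_nonneg _
    exact (pow_left_inj₀ h4 zero_le_one two_ne_zero).1 (by rw [h3, one_pow])
  · rw [← hs2]
    set O : ℝ := ‖ov (vec e ψ (α * t) s (s * t)) k χ‖ with hO
    have hw : q * O ^ 2 = (S * O) ^ 2 := by rw [mul_pow, hSq]
    rw [hw]
    apply final hs0 hsq
    have e1 : (α * t) ^ 2 * S * S = α ^ 2 * u ^ 2 := by
      have : (α * t) ^ 2 * S * S = α ^ 2 * t ^ 2 * S ^ 2 := by ring
      rw [this, hSq, htu]
      linear_combination (α ^ 2 * u ^ 2) * hs4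
    have e2 : 2 * (α * t * (s * t)) * S * S = 2 * α * s * u ^ 2 := by
      have : 2 * (α * t * (s * t)) * S * S = 2 * α * s * t ^ 2 * S ^ 2 := by ring
      rw [this, hSq, htu]
      linear_combination (2 * α * s * u ^ 2) * hs4
    have e3 : 2 * s * (α * t + s * t) * S = 2 * s * (α + s) * u := by
      rw [htu]
      linear_combination (2 * s * (α + s) * u) * hSs
    by_cases hk0 : k = 0
    · have hχ : χ ≠ 0 := by
        rcases hk with h | h
        · exact absurd hk0 h
        · exact h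
      subst hk0
      have h1 := ov_mod e hψ ha0 hb0 hc0 hχ
      rw [← hO, ← hqd, ← hS] at h1
      have h2 : |S * O - 1| = S * |O - s ^ 2| := by
        rw [← abs_of_pos hS0, ← abs_mul, abs_of_pos hS0]
        congr 1
        linear_combination hSs
      rw [h2]
      calc S * |O - s ^ 2| ≤ S * (2 * (α * t * (s * t)) * S + 2 * s * (α * t + s * t)) :=
            mul_le_mul_of_nonneg_left h1 hS0.le
        _ = 2 * α * s * u ^ 2 + 2 * s * (α + s) * u := by rw [← e2, ← e3]; ring
        _ ≤ 4 * s + 2.1 * s ^ 2 := hcom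
        _ ≤ 4 * s + 5 * s ^ 2 := by linarith [sq_nonneg s]
    · by_cases hχ : χ = 0
      · subst hχ
        have h1 := ov_tra e hψ ha0 hb0 hc0 hk0
        rw [← hO, ← hD] at h1
        have h5 : (s * t) ^ 2 * D = s ^ 2 := by linear_combination s ^ 2 * htD
        rw [h5] at h1
        have h2 : |S * O - 1| = S * |O - s ^ 2| := by
          rw [← abs_of_pos hS0, ← abs_mul, abs_of_pos hS0]
          congr 1
          linear_combination hSs
        rw [h2]
        have e4 : S * (α * t) ^ 2 = α ^ 2 * u ^ 2 * s ^ 2 := by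
          rw [htu]
          linear_combination (α ^ 2 * u ^ 2 * s ^ 2) * hSs
        have e5 : S * (2 * (α * t * (s * t))) = 2 * α * s * u ^ 2 * s ^ 2 := by
          rw [htu]
          linear_combination (2 * α * s * u ^ 2 * s ^ 2) * hSs
        have e6 : α ^ 2 * u ^ 2 * s ^ 2 ≤ 1 * 1.01 * s ^ 2 := by
          apply mul_le_mul_of_nonneg_right _ (by positivity)
          apply mul_le_mul _ hu2 (by positivity) (by norm_num)
          exact pow_le_one₀ hα0 hα1
        have e7 : 2 * α * s * u ^ 2 * s ^ 2 ≤ 2 * α * s * u ^ 2 := by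
          have h6 : s ^ 2 ≤ 1 := pow_le_one₀ hs0.le (by linarith)
          have h7 : 0 ≤ 2 * α * s * u ^ 2 := by positivity
          exact mul_le_of_le_one_right h7 h6
        calc S * |O - s ^ 2| ≤
              S * ((α * t) ^ 2 + 2 * (α * t * (s * t)) + 2 * s * (α * t + s * t)) :=
              mul_le_mul_of_nonneg_left h1 hS0.le
          _ = α ^ 2 * u ^ 2 * s ^ 2 + 2 * α * s * u ^ 2 * s ^ 2 + 2 * s * (α + s) * u := by
              rw [← e4, ← e5, ← e3]; ring
          _ ≤ 4 * s + 5 * s ^ 2 := by linarith [sq_nonneg s]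
      · have h1 := ov_both e hψ ha0 hb0 hc0 hk0 hχ
        rw [← hO, ← hqd, ← hS] at h1
        have h2 : |S * O - 1| ≤ S * |O - (α * t) ^ 2 * S| + |α ^ 2 * u ^ 2 - 1| := by
          have h3 : S * |O - (α * t) ^ 2 * S| = |S * O - α ^ 2 * u ^ 2| := by
            rw [← abs_of_pos hS0, ← abs_mul, abs_of_pos hS0]
            congr 1
            linear_combination -e1
          rw [h3]
          have := abs_add_le (S * O - α ^ 2 * u ^ 2) (α ^ 2 * u ^ 2 - 1)
          rwa [sub_add_sub_cancel] at this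
        calc |S * O - 1| ≤ S * |O - (α * t) ^ 2 * S| + |α ^ 2 * u ^ 2 - 1| := h2
          _ ≤ S * (2 * (α * t * (s * t)) * S + 2 * s * (α * t + s * t)) + 2.9 * s ^ 2 :=
              add_le_add (mul_le_mul_of_nonneg_left h1 hS0.le) hmain
          _ = 2 * α * s * u ^ 2 + 2 * s * (α + s) * u + 2.9 * s ^ 2 := by
              rw [← e2, ← e3]; ring
          _ ≤ 4 * s + 5 * s ^ 2 := by linarith [sq_nonneg s]

end Pool.Agent.L7h40.GS
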